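import Pool.Agent.Lib.MP_65c801_co.W.All

/-! Cutting pseudo-circles: `n` Jordan curves in the plane, every two of which meet at most twice
and cross at each common point, can be cut by `O(n^b)` points into arcs every two of which meet at
most once, for every `b > 7 / 5`. -/

namespace Pool.Agent.Results.MP_65c801_co.SevenFifths

theorem result : ∀ b : ℝ, 7 / 5 < b → ∃ C : ℝ,
    ∀ (n : ℕ) (γ : Fin n → Circle → ℂ), (∀ i, Continuous (γ i)) →
    (∀ i, Function.Injective (γ i)) →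
    (∀ i j, i ≠ j → (Set.range (γ i) ∩ Set.range (γ j)).encard ≤ 2) →
    (∀ i j, i ≠ j → ∀ p ∈ Set.range (γ i) ∩ Set.range (γ j), ∀ U ∈ nhds p,
      ∃ a ∈ U ∩ (Set.range (γ j) \ Set.range (γ i)),
        ∃ a' ∈ U ∩ (Set.range (γ j) \ Set.range (γ i)),
          a' ∉ connectedComponentIn (Set.range (γ i))ᶜ a) →
    ∃ X : Finset ℂ, (X.card : ℝ) ≤ C * (n : ℝ) ^ b ∧
      (∀ x ∈ X, ∃ i, x ∈ Set.range (γ i)) ∧ (∀ i, ∃ x ∈ X, x ∈ Set.range (γ i)) ∧
      ∀ i j p q, (i ≠ j ∨ connectedComponentIn (Set.range (γ i) \ ↑X) p ≠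
          connectedComponentIn (Set.range (γ j) \ ↑X) q) →
        (connectedComponentIn (Set.range (γ i) \ ↑X) p ∩
          connectedComponentIn (Set.range (γ j) \ ↑X) q).Subsingleton :=
  Pool.Agent.Lib.MP_65c801_co.W.geoN Pool.Agent.Lib.MP_65c801_co.W.famAllN

end Pool.Agent.Results.MP_65c801_co.SevenFifths
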